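import Mathlib
import Pool.Agent.R120.Words

set_option autoImplicit false

/-! `h(n,m) ≤ 36 ℓ(m,n)` for all `n ≥ 1` and `1 ≤ m ≤ n!`.

Idea: let `b` be `9` times `⌊ℓ/n⌋ + 1`. Cut `[n]` into blocks of `b` consecutive letters (the last
one between `b` and `2b`) and write, for each block, the block `|block|` times in succession. The
resulting word has length at most `2bn ≤ 36 ℓ` and contains all permutations that permute each
block, of which there are at least `(b/3)^n ≥ C(ℓ,n)`. If `b > n` one block is enough. -/

namespace Pool.Agent.Results.MP_6c7e5c_co.ConstantFactor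

/-- The number of permutations `π` of the `n` letters of `Fin n` such that the word
`π(0) π(1) ⋯ π(n-1)` is a (not necessarily contiguous) subsequence of the word `w`. -/
noncomputable def contained {n : ℕ} (w : List (Fin n)) : ℕ :=
  {π : Equiv.Perm (Fin n) | (List.ofFn (fun i => π i)).Sublist w}.ncard

/-- `h(n,m)`: the minimum length of a word over `n` letters containing at least `m` distinct
permutations of the letters. -/
noncomputable def h (n m : ℕ) : ℕ :=
  sInf {L : ℕ | ∃ w : List (Fin n), w.length = L ∧ m ≤ contained w}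

/-- `ℓ(m,n)`: the least integer `ℓ` with `C(ℓ,n) ≥ m`. -/
noncomputable def ell (m n : ℕ) : ℕ := sInf {l : ℕ | m ≤ l.choose n}

lemma ell_spec (m n : ℕ) (hn : 1 ≤ n) : m ≤ (ell m n).choose n := by
  have hne : {l : ℕ | m ≤ l.choose n}.Nonempty := by
    refine ⟨n + m * n.factorial, ?_⟩
    have h1 := Nat.pow_sub_le_descFactorial (n + m * n.factorial) n
    have h2 : n + m * n.factorial + 1 - n = m * n.factorial + 1 := by omega
    rw [h2, Nat.descFactorial_eq_factorial_mul_choose] at h1
    have h3 : m * n.factorial + 1 ≤ (m * n.factorial + 1) ^ n := Nat.le_self_pow (by omega) _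
    have h4 : n.factorial * m ≤ n.factorial * (n + m * n.factorial).choose n := by
      rw [Nat.mul_comm n.factorial m]
      omega
    exact Nat.le_of_mul_le_mul_left h4 (Nat.factorial_pos n)
  exact Nat.sInf_mem hne

/-- For all `n ≥ 1` and all `1 ≤ m ≤ n!` one has `h(n,m) ≤ 36 ℓ(m,n)`. -/
theorem result : ∀ n m : ℕ, 1 ≤ n → 1 ≤ m → m ≤ n.factorial → h n m ≤ 36 * ell m n := by
  intro n m hn hm hmn
  have h1 := ell_spec m n hn
  have h2 : n ≤ ell m n := by
    by_contra hlt
    rw [Nat.choose_eq_zero_of_lt (by omega)] at h1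
    omega
  obtain ⟨w, hw, S, hS, hSw⟩ := Pool.Agent.R120.Words.good_main n m (ell m n) hn hmn h2 h1
  refine le_trans (Nat.sInf_le ⟨w, rfl, ?_⟩) hw
  refine le_trans hS ?_
  rw [← Set.ncard_coe_finset]
  exact Set.ncard_le_ncard (fun π hπ => hSw π hπ) (Set.toFinite _)

end Pool.Agent.Results.MP_6c7e5c_co.ConstantFactor
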